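import Pool.Agent.Lib_helper4.VM.IDefs

/-! helper4, VM part I: extension of a `ℚ`-valued valuation to an algebraic extension (EXT). -/

namespace Pool.Agent.VM

namespace QV

variable {K L : Type*} [Field K] [Field L] [Algebra K L]

/-- a valuation ring of `L` dominating the valuation ring of `v` -/
lemma exists_dominating (v : QV K) :
    ∃ B : ValuationSubring L, ∀ a : K, a ≠ 0 → (algebraMap K L a ∈ B ↔ 0 ≤ v.v a) := by
  obtain ⟨B, hle, hloc⟩ :=
    (LocalSubring.map (algebraMap K L) v.ring.toLocalSubring).exists_le_valuationSubring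
  refine ⟨B, fun a ha => ?_⟩
  have hmem : ∀ b : K, b ∈ v.ring →
      algebraMap K L b ∈ (LocalSubring.map (algebraMap K L) v.ring.toLocalSubring).toSubring := by
    intro b hb
    exact ⟨b, hb, rfl⟩
  constructor
  · intro haB
    by_contra hneg
    push Not at hneg
    have hinv : 0 < v.v a⁻¹ := by rw [v.inv ha]; linarith
    have hinvmem : a⁻¹ ∈ v.ring := (v.mem_ring_of (inv_ne_zero ha)).mpr hinv.le
    have hu : IsUnit (Subring.inclusion hle ⟨algebraMap K L a⁻¹, hmem _ hinvmem⟩) := by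
      refine IsUnit.of_mul_eq_one ⟨algebraMap K L a, haB⟩ ?_
      apply Subtype.ext
      show algebraMap K L a⁻¹ * algebraMap K L a = 1
      rw [← map_mul, inv_mul_cancel₀ ha, map_one]
    have hu2 := hloc.map_nonunit _ hu
    obtain ⟨⟨c, hc⟩, hc1⟩ := hu2.exists_right_inv
    obtain ⟨c', hc', hcc⟩ := hc
    have h1 : algebraMap K L a⁻¹ * c = 1 := congrArg Subtype.val hc1
    rw [← hcc, ← map_mul] at h1
    have h2 : a⁻¹ * c' = 1 := by
      apply (algebraMap K L).injective; rw [h1, map_one]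
    have hc0 : c' ≠ 0 := right_ne_zero_of_mul_eq_one h2
    have h3 := v.mul (inv_ne_zero ha) hc0
    rw [h2, v.one] at h3
    have h4 : 0 ≤ v.v c' := (v.mem_ring_of hc0).mp hc'
    linarith
  · intro h
    exact hle (hmem a ((v.mem_ring_of ha).mpr h))

/-- the value group of an algebraic extension is torsion over that of the base -/
lemma exists_pow_rel [Algebra.IsAlgebraic K L] {Γ : Type*} [LinearOrderedCommGroupWithZero Γ]
    (V : Valuation L Γ) {x : L} (hx : x ≠ 0) :
    ∃ (n : ℕ) (c : K), 1 ≤ n ∧ c ≠ 0 ∧ V (x ^ n) = V (algebraMap K L c) := by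
  classical
  obtain ⟨p, hp0, hp⟩ := Algebra.IsAlgebraic.isAlgebraic (R := K) x
  by_contra hcon
  push Not at hcon
  have hterm : ∀ i ∈ p.support, algebraMap K L (p.coeff i) * x ^ i ≠ 0 := by
    intro i hi
    rw [Polynomial.mem_support_iff] at hi
    exact mul_ne_zero ((map_ne_zero _).mpr hi) (pow_ne_zero _ hx)
  have hdist : ∀ i ∈ p.support, ∀ j ∈ p.support, i < j →
      V (algebraMap K L (p.coeff i) * x ^ i) ≠ V (algebraMap K L (p.coeff j) * x ^ j) := by
    intro i hi j hj hij heq
    rw [Polynomial.mem_support_iff] at hi hj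
    refine hcon (j - i) (p.coeff i / p.coeff j) (by omega) (div_ne_zero hi hj) ?_
    have hVx : V (x ^ i) ≠ 0 := (V.ne_zero_iff).mpr (pow_ne_zero _ hx)
    have hVj : V (algebraMap K L (p.coeff j)) ≠ 0 := (V.ne_zero_iff).mpr ((map_ne_zero _).mpr hj)
    have hsplit : x ^ j = x ^ (j - i) * x ^ i := by rw [← pow_add]; congr 1; omega
    rw [map_div₀, map_div₀, eq_div_iff hVj]
    rw [hsplit, map_mul, map_mul, map_mul, ← mul_assoc] at heq
    have := mul_right_cancel₀ hVx heq
    rw [this, mul_comm]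
  have hdist' : ∀ i ∈ p.support, ∀ j ∈ p.support, i ≠ j →
      V (algebraMap K L (p.coeff i) * x ^ i) ≠ V (algebraMap K L (p.coeff j) * x ^ j) := by
    intro i hi j hj hij
    rcases lt_or_gt_of_ne hij with h | h
    · exact hdist i hi j hj h
    · exact (hdist j hj i hi h).symm
  have hne : p.support.Nonempty := Polynomial.support_nonempty.mpr hp0
  obtain ⟨m, hm, hmax⟩ := Finset.exists_max_image p.support
    (fun i => V (algebraMap K L (p.coeff i) * x ^ i)) hne
  have hlt : V (∑ i ∈ p.support.erase m, algebraMap K L (p.coeff i) * x ^ i) <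
      V (algebraMap K L (p.coeff m) * x ^ m) := by
    refine V.map_sum_lt ((V.ne_zero_iff).mpr (hterm m hm)) ?_
    intro i hi
    rw [Finset.mem_erase] at hi
    exact lt_of_le_of_ne (hmax i hi.2) (hdist' i hi.2 m hm hi.1)
  have hsum : (Polynomial.aeval x) p = algebraMap K L (p.coeff m) * x ^ m +
      ∑ i ∈ p.support.erase m, algebraMap K L (p.coeff i) * x ^ i := by
    rw [Finset.add_sum_erase p.support (fun i => algebraMap K L (p.coeff i) * x ^ i) hm,
      Polynomial.aeval_def, Polynomial.eval₂_eq_sum, Polynomial.sum_def]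
  rw [hp] at hsum
  have h1 := V.map_add_eq_of_lt_left hlt
  rw [← hsum, map_zero] at h1
  exact (V.ne_zero_iff).mpr (hterm m hm) h1.symm

/-- **(EXT)** a `ℚ`-valued valuation extends to an algebraic extension -/
theorem exists_extend [Algebra.IsAlgebraic K L] (v : QV K) :
    ∃ w : QV L, ∀ a : K, a ≠ 0 → w.v (algebraMap K L a) = v.v a := by
  classical
  obtain ⟨B, hB⟩ := exists_dominating (L := L) v
  set V := B.valuation with hV
  have hVle : ∀ y : L, V y ≤ 1 ↔ y ∈ B := fun y => B.valuation_le_one_iff y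
  have hle : ∀ a b : K, a ≠ 0 → b ≠ 0 →
      (V (algebraMap K L a) ≤ V (algebraMap K L b) ↔ v.v b ≤ v.v a) := by
    intro a b ha hb
    have hVb : V (algebraMap K L b) ≠ 0 := (V.ne_zero_iff).mpr ((map_ne_zero _).mpr hb)
    rw [← div_le_one₀ (zero_lt_iff.mpr hVb), ← map_div₀, ← map_div₀, hVle, hB _ (div_ne_zero ha hb),
      v.div ha hb]
    constructor <;> intro h <;> linarith
  choose! n c hn hc hnc using fun (x : L) (hx : x ≠ 0) => exists_pow_rel (K := K) V hx
  -- the general comparison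
  have key : ∀ (x y : L) (m k : ℕ) (a b : K), x ≠ 0 → y ≠ 0 → 1 ≤ m → 1 ≤ k → a ≠ 0 → b ≠ 0 →
      V (x ^ m) = V (algebraMap K L a) → V (y ^ k) = V (algebraMap K L b) →
      (V x ≤ V y ↔ v.v b / k ≤ v.v a / m) := by
    intro x y m k a b hx hy hm hk ha hb hxa hyb
    have hm' : (0 : ℚ) < m := by exact_mod_cast hm
    have hk' : (0 : ℚ) < k := by exact_mod_cast hk
    have h1 : V x ≤ V y ↔ V x ^ (m * k) ≤ V y ^ (m * k) :=
      (pow_le_pow_iff_left₀ zero_le zero_le (by positivity)).symm
    rw [h1, pow_mul, mul_comm m k, pow_mul, ← map_pow, ← map_pow V y, hxa, hyb, ← map_pow,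
      ← map_pow, ← map_pow, ← map_pow, hle _ _ (pow_ne_zero _ ha) (pow_ne_zero _ hb),
      v.pow ha, v.pow hb, div_le_div_iff₀ hk' hm']
    constructor <;> intro h <;> linarith
  have key' : ∀ (x : L) (m : ℕ) (a : K), x ≠ 0 → 1 ≤ m → a ≠ 0 →
      V (x ^ m) = V (algebraMap K L a) → v.v (c x) / n x = v.v a / m := by
    intro x m a hx hm ha hxa
    apply le_antisymm
    · exact (key x x m (n x) a (c x) hx hx hm (hn x hx) ha (hc x hx) hxa (hnc x hx)).mp le_rfl
    · exact (key x x (n x) m (c x) a hx hx (hn x hx) hm (hc x hx) ha (hnc x hx) hxa).mp le_rfl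
  refine ⟨⟨fun x => v.v (c x) / n x, ?_, ?_⟩, ?_⟩
  · intro x y hx hy
    have hnx := hn x hx
    have hny := hn y hy
    have hnx' : (n x : ℚ) ≠ 0 := by positivity
    have hny' : (n y : ℚ) ≠ 0 := by positivity
    rw [key' (x * y) (n x * n y) (c x ^ n y * c y ^ n x) (mul_ne_zero hx hy)
      (Nat.mul_pos hnx hny) (mul_ne_zero (pow_ne_zero _ (hc x hx)) (pow_ne_zero _ (hc y hy))) ?_]
    · rw [v.mul (pow_ne_zero _ (hc x hx)) (pow_ne_zero _ (hc y hy)), v.pow (hc x hx),
        v.pow (hc y hy)]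
      push_cast
      field_simp
    · have e1 : V ((x * y) ^ (n x * n y)) = V (x ^ n x) ^ n y * V (y ^ n y) ^ n x := by
        rw [mul_pow, map_mul, pow_mul, mul_comm (n x) (n y), pow_mul, map_pow V (x ^ n x),
          map_pow V (y ^ n y)]
      have e2 : V (algebraMap K L (c x ^ n y * c y ^ n x)) =
          V (algebraMap K L (c x)) ^ n y * V (algebraMap K L (c y)) ^ n x := by
        rw [map_mul, map_mul, map_pow, map_pow, map_pow, map_pow]
      rw [e1, e2, hnc x hx, hnc y hy]
  · intro x y hx hy hxy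
    have hadd : V (x + y) ≤ V x ∨ V (x + y) ≤ V y := V.map_add' x y
    rcases hadd with h | h
    · refine le_trans (min_le_left _ _) ?_
      exact (key (x + y) x (n (x + y)) (n x) (c (x + y)) (c x) hxy hx (hn _ hxy) (hn _ hx)
        (hc _ hxy) (hc _ hx) (hnc _ hxy) (hnc _ hx)).mp h
    · refine le_trans (min_le_right _ _) ?_
      exact (key (x + y) y (n (x + y)) (n y) (c (x + y)) (c y) hxy hy (hn _ hxy) (hn _ hy)
        (hc _ hxy) (hc _ hy) (hnc _ hxy) (hnc _ hy)).mp h
  · intro a ha
    show v.v (c (algebraMap K L a)) / n (algebraMap K L a) = v.v a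
    rw [key' (algebraMap K L a) 1 a ((map_ne_zero _).mpr ha) le_rfl ha (by rw [pow_one])]
    simp

end QV

/-- EXT -/
theorem EXT {K L : Type} [Field K] [Field L] [Algebra K L] [Algebra.IsAlgebraic K L]
    (v : QV K) : ∃ v' : QV L, ∀ x, v'.v (algebraMap K L x) = v.v x := by
  classical
  obtain ⟨w, hw⟩ := QV.exists_extend (L := L) v
  refine ⟨⟨fun x => if x = 0 then v.v 0 else w.v x, ?_, ?_⟩, ?_⟩
  · intro a b ha hb
    simp only [ha, hb, mul_eq_zero, or_self, if_false]
    exact w.mul ha hb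
  · intro a b ha hb hab
    simp only [ha, hb, hab, if_false]
    exact w.add ha hb hab
  · intro x
    rcases eq_or_ne x 0 with rfl | hx
    · simp
    · simp only [map_eq_zero, hx, if_false]
      exact hw x hx

end Pool.Agent.VM
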