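import Mathlib

/-! helper4, VM part I: `ℚ`-valued valuations of fields. -/

namespace Pool.Agent.VM

/-- a `ℚ`-valued valuation of a field, as a function on the nonzero elements -/
structure QV (K : Type*) [Field K] where
  v : K → ℚ
  mul : ∀ {a b : K}, a ≠ 0 → b ≠ 0 → v (a * b) = v a + v b
  add : ∀ {a b : K}, a ≠ 0 → b ≠ 0 → a + b ≠ 0 → min (v a) (v b) ≤ v (a + b)

namespace QV

variable {K : Type*} [Field K] (w : QV K)

lemma one : w.v 1 = 0 := by
  have h := w.mul (a := 1) (b := 1) one_ne_zero one_ne_zero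
  rw [mul_one] at h; linarith

lemma neg_one : w.v (-1) = 0 := by
  have h := w.mul (a := -1) (b := -1) (by simp) (by simp)
  rw [neg_mul_neg, mul_one, w.one] at h; linarith

lemma neg (a : K) : w.v (-a) = w.v a := by
  rcases eq_or_ne a 0 with rfl | ha
  · rw [neg_zero]
  · rw [← neg_one_mul, w.mul (by simp) ha, w.neg_one, zero_add]

lemma inv {a : K} (ha : a ≠ 0) : w.v a⁻¹ = - w.v a := by
  have h := w.mul (inv_ne_zero ha) ha
  rw [inv_mul_cancel₀ ha, w.one] at h; linarith

lemma div {a b : K} (ha : a ≠ 0) (hb : b ≠ 0) : w.v (a / b) = w.v a - w.v b := by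
  rw [div_eq_mul_inv, w.mul ha (inv_ne_zero hb), w.inv hb]; ring

lemma pow {a : K} (ha : a ≠ 0) (n : ℕ) : w.v (a ^ n) = n * w.v a := by
  induction n with
  | zero => simp [w.one]
  | succ n ih => rw [pow_succ, w.mul (pow_ne_zero n ha) ha, ih]; push_cast; ring

lemma sub {a b : K} (ha : a ≠ 0) (hb : b ≠ 0) (h : a - b ≠ 0) :
    min (w.v a) (w.v b) ≤ w.v (a - b) := by
  rw [sub_eq_add_neg] at h ⊢
  have := w.add ha (neg_ne_zero.mpr hb) h
  rwa [w.neg] at this

/-- strict case of the ultrametric inequality -/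
lemma add_eq_of_lt {a b : K} (ha : a ≠ 0) (hb : b ≠ 0) (h : w.v a < w.v b) :
    a + b ≠ 0 ∧ w.v (a + b) = w.v a := by
  have hab : a + b ≠ 0 := by
    intro h0
    have : a = -b := eq_neg_of_add_eq_zero_left h0
    rw [this, w.neg] at h; exact lt_irrefl _ h
  refine ⟨hab, le_antisymm ?_ ?_⟩
  · have h1 := w.sub (a := a + b) (b := b) hab hb (by simpa using ha)
    rw [add_sub_cancel_right] at h1
    rcases min_le_iff.mp h1 with h2 | h2
    · exact h2
    · exact absurd h2 (not_le.mpr h)
  · have h1 := w.add ha hb hab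
    rwa [min_eq_left h.le] at h1

/-- the valuation ring -/
def ring : ValuationSubring K where
  carrier := {a | a = 0 ∨ 0 ≤ w.v a}
  mul_mem' := by
    rintro a b (rfl | ha) (rfl | hb) <;> simp only [Set.mem_setOf_eq, zero_mul, mul_zero, true_or]
    by_cases ha0 : a = 0
    · left; simp [ha0]
    by_cases hb0 : b = 0
    · left; simp [hb0]
    · right; rw [w.mul ha0 hb0]; linarith
  one_mem' := Or.inr w.one.ge
  add_mem' := by
    rintro a b ha hb
    simp only [Set.mem_setOf_eq] at ha hb ⊢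
    by_cases ha0 : a = 0
    · simpa [ha0] using hb
    by_cases hb0 : b = 0
    · simpa [hb0] using ha
    by_cases hab : a + b = 0
    · left; exact hab
    · right
      refine le_trans ?_ (w.add ha0 hb0 hab)
      exact le_min (ha.resolve_left ha0) (hb.resolve_left hb0)
  zero_mem' := Or.inl rfl
  neg_mem' := by
    rintro a (rfl | ha)
    · left; simp
    · right; rw [w.neg]; exact ha
  mem_or_inv_mem' := by
    intro a
    by_cases ha0 : a = 0
    · left; left; exact ha0
    rcases le_total 0 (w.v a) with h | h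
    · left; right; exact h
    · right; right; rw [w.inv ha0]; linarith

lemma mem_ring {a : K} : a ∈ w.ring ↔ a = 0 ∨ 0 ≤ w.v a := Iff.rfl

lemma mem_ring_of {a : K} (ha : a ≠ 0) : a ∈ w.ring ↔ 0 ≤ w.v a := by
  rw [mem_ring]; simp [ha]

lemma isUnit_iff {a : w.ring} : IsUnit a ↔ (a : K) ≠ 0 ∧ w.v a = 0 := by
  constructor
  · intro h
    obtain ⟨b, hb⟩ := h.exists_right_inv
    have hb' : (a : K) * b = 1 := by
      have := congrArg (Subtype.val) hb
      simpa using this
    have ha0 : (a : K) ≠ 0 := left_ne_zero_of_mul_eq_one hb'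
    have hb0 : (b : K) ≠ 0 := right_ne_zero_of_mul_eq_one hb'
    refine ⟨ha0, ?_⟩
    have h1 := w.mul ha0 hb0
    rw [hb', w.one] at h1
    have h2 := (w.mem_ring_of ha0).mp a.2
    have h3 := (w.mem_ring_of hb0).mp b.2
    linarith
  · rintro ⟨h0, h1⟩
    refine IsUnit.of_mul_eq_one ⟨(a : K)⁻¹, ?_⟩ ?_
    · rw [w.mem_ring_of (inv_ne_zero h0), w.inv h0, h1, neg_zero]
    · ext; simp [h0]

/-- the residue field -/
abbrev κ : Type _ := IsLocalRing.ResidueField w.ring

open Classical in
/-- the residue of an element (`0` if it is not integral) -/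
noncomputable def res (a : K) : w.κ :=
  if h : a ∈ w.ring then IsLocalRing.residue w.ring ⟨a, h⟩ else 0

lemma res_of_mem {a : K} (h : a ∈ w.ring) : w.res a = IsLocalRing.residue w.ring ⟨a, h⟩ := by
  rw [res, dif_pos h]

lemma res_zero : w.res 0 = 0 := by
  rw [w.res_of_mem w.ring.zero_mem]; exact map_zero _

lemma res_one : w.res 1 = 1 := by
  rw [w.res_of_mem w.ring.one_mem]; exact map_one _

lemma res_add {a b : K} (ha : a ∈ w.ring) (hb : b ∈ w.ring) : w.res (a + b) = w.res a + w.res b := by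
  rw [w.res_of_mem ha, w.res_of_mem hb, w.res_of_mem (w.ring.add_mem _ _ ha hb), ← map_add]; rfl

lemma res_mul {a b : K} (ha : a ∈ w.ring) (hb : b ∈ w.ring) : w.res (a * b) = w.res a * w.res b := by
  rw [w.res_of_mem ha, w.res_of_mem hb, w.res_of_mem (w.ring.mul_mem _ _ ha hb), ← map_mul]; rfl

lemma res_neg {a : K} (ha : a ∈ w.ring) : w.res (-a) = - w.res a := by
  rw [w.res_of_mem ha, w.res_of_mem (w.ring.neg_mem _ ha), ← map_neg]; rfl

lemma res_sub {a b : K} (ha : a ∈ w.ring) (hb : b ∈ w.ring) : w.res (a - b) = w.res a - w.res b := by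
  rw [sub_eq_add_neg, w.res_add ha (w.ring.neg_mem _ hb), w.res_neg hb, sub_eq_add_neg]

/-- the residue of an integral element vanishes iff its valuation is positive -/
lemma res_eq_zero_iff {a : K} (ha : a ∈ w.ring) : w.res a = 0 ↔ a = 0 ∨ 0 < w.v a := by
  rw [w.res_of_mem ha, IsLocalRing.residue_eq_zero_iff, IsLocalRing.mem_maximalIdeal,
    mem_nonunits_iff, w.isUnit_iff]
  rcases eq_or_ne a 0 with rfl | h0
  · simp
  · have := (w.mem_ring_of h0).mp ha
    simp only [ne_eq, h0, not_false_eq_true, true_and, false_or]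
    constructor
    · intro h; exact lt_of_le_of_ne this (Ne.symm h)
    · intro h h'; linarith

lemma res_surj (y : w.κ) : ∃ a ∈ w.ring, w.res a = y := by
  obtain ⟨⟨a, ha⟩, h⟩ := IsLocalRing.residue_surjective y
  exact ⟨a, ha, by rw [w.res_of_mem ha, h]⟩

/-- the restriction of a valuation along a field homomorphism -/
def comap {L : Type*} [Field L] (f : K →+* L) (u : QV L) : QV K where
  v a := u.v (f a)
  mul ha hb := by
    rw [map_mul]
    exact u.mul ((map_ne_zero f).mpr ha) ((map_ne_zero f).mpr hb)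
  add ha hb hab := by
    have := (map_ne_zero f).mpr hab
    rw [map_add] at this ⊢
    exact u.add ((map_ne_zero f).mpr ha) ((map_ne_zero f).mpr hb) this

end QV

/-- rank two valuations `(v, o)`, lexicographic -/
structure Rk2 (K : Type*) [Field K] extends QV K where
  o : K → ℚ
  omul : ∀ {a b : K}, a ≠ 0 → b ≠ 0 → o (a * b) = o a + o b
  oadd : ∀ {a b : K}, a ≠ 0 → b ≠ 0 → a + b ≠ 0 →
    min (toLex (v a, o a)) (toLex (v b, o b)) ≤ toLex (v (a + b), o (a + b))

end Pool.Agent.VM
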